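import Pool.Agent.Results.MP_6c02f2_nt.PowerSaving
import Pool.Agent.U513.AP.Sparse

/-!
# Primes not dividing the central binomial coefficient, near integral polynomials at simultaneous approximations

The starting file bounds the number of the `n ≤ N` for which the reciprocal sum of these primes is large. Here: for all points `α`
outside of a set of small Hausdorff dimension, it is small for ALL the natural numbers near integral polynomials at ALL
approximations of `α` with a large denominator.
-/

set_option autoImplicit false

open Finset Classical

namespace Pool.Agent.Results.MP_6c02f2_nt.Approximations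

open Pool.Agent.U513.AP

/-- For every `ε > 0` there is `c > 0` such that the property the sum of `1 / p` over the primes `p < n` not dividing the central
binomial coefficient of `n` is at most `ε log log n` holds at approximations outside of exceptional sets of exponent `1 - c`. -/
theorem result (ε : ℝ) (hε : 0 < ε) : ∃ c : ℝ, 0 < c ∧ c ≤ 1 ∧ AtApproximations (ι := Unit) (1 - c)
    (fun _ n => ∑ p ∈ (Finset.range n).filter (fun p => p.Prime ∧ ¬ p ∣ Nat.centralBinom n), (1 : ℝ) / (p : ℝ) ≤
      ε * Real.log (Real.log n)) := by
  obtain ⟨c, hc, N₀, h⟩ := PowerSaving.result ε hε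
  refine ⟨min c 1, lt_min hc one_pos, min_le_right _ _, ?_⟩
  refine sparse_law_pow (min_le_right _ _) _ fun _ => ⟨1, max N₀ 1, fun X hX => ?_⟩
  have hX1 : (1 : ℝ) ≤ X := by exact_mod_cast (le_trans (le_max_right _ _) hX)
  refine (ncard_le_filter fun n _ _ hn => ?_).trans ((h X (le_trans (le_max_left _ _) hX)).trans ?_)
  · exact not_le.1 hn
  · rw [one_mul]
    exact Real.rpow_le_rpow_of_exponent_le hX1 (by linarith [min_le_left c 1])

end Pool.Agent.Results.MP_6c02f2_nt.Approximations
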